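import Pool.Agent.HAR.Stmts

/-!
Squad HAR, row TRN: the Harary polynomial determines its coefficients.
-/

namespace Pool.Agent.HAR.H65

open Finset Filter Topology

noncomputable section

/-- the two counting functions agree -/
theorem hP_eq (x : Cl → Bool) {n : ℕ} (G : SimpleGraph (Fin n)) (i : ℕ) :
    hP (ofBits x) G i = hh (cn G) (fun a : Cn n => x a.1) univ i := by
  unfold hP hh
  refine Nat.card_congr (Equiv.subtypeEquivRight fun π => ?_)
  refine and_congr Iff.rfl (forall₂_congr fun B _ => ?_)
  have h1 : Nat.card ((B : Set (Fin n)) : Type) = B.card := by simp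
  change (Nat.card ((B : Set (Fin n)) : Type) = 1 ∨ x (cl (G.induce (B : Set (Fin n)))) = true) ↔
    (B.card = 1 ∨ x (cls G B) = true)
  rw [h1]
  rfl

theorem hP_zero (P : GProp) {n : ℕ} (G : SimpleGraph (Fin n)) {i : ℕ} (hi : n < i) :
    hP P G i = 0 := by
  unfold hP
  have h1 : IsEmpty {π : Finpartition (Finset.univ : Finset (Fin n)) // π.parts.card = i ∧
      ∀ B ∈ π.parts, P.mem _ (G.induce (B : Set (Fin n)))} := by
    refine ⟨fun π => ?_⟩
    have h2 := π.1.card_parts_le_card
    rw [π.2.1, Finset.card_univ, Fintype.card_fin] at h2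
    omega
  exact Nat.card_of_isEmpty

theorem hP_pos (x : Cl → Bool) {n : ℕ} (G : SimpleGraph (Fin n)) :
    hP (ofBits x) G n ≠ 0 := by
  unfold hP
  have hfin : Finite (Finpartition (Finset.univ : Finset (Fin n))) := by
    refine Finite.of_injective (fun π => π.parts) fun π π' h => ?_
    exact Finpartition.ext h
  have h1 : Nonempty {π : Finpartition (Finset.univ : Finset (Fin n)) // π.parts.card = n ∧
      ∀ B ∈ π.parts, (ofBits x).mem _ (G.induce (B : Set (Fin n)))} := by
    refine ⟨⟨⊥, ?_, fun B hB => ?_⟩⟩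
    · rw [Finpartition.card_bot, Finset.card_univ, Fintype.card_fin]
    · rw [Finpartition.mem_bot_iff] at hB
      obtain ⟨a, _, rfl⟩ := hB
      left
      simp
  exact (Nat.card_pos).ne'

/-- the value at `k` -/
theorem eval_hpol (P : GProp) {n : ℕ} (G : SimpleGraph (Fin n)) (k : ℕ) :
    (hpol P G).eval (k : ℤ) = ∑ i ∈ range (k + 1), (hP P G i : ℤ) * (k.descFactorial i : ℤ) := by
  unfold hpol
  rw [Polynomial.eval_finset_sum]
  have h1 : ∀ i ∈ range (Fintype.card (Fin n) + 1),
      (Polynomial.C (hP P G i : ℤ) * descPochhammer ℤ i).eval (k : ℤ) =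
        (hP P G i : ℤ) * (k.descFactorial i : ℤ) := by
    intro i _
    rw [Polynomial.eval_mul, Polynomial.eval_C, descPochhammer_eval_eq_descFactorial]
  rw [Finset.sum_congr rfl h1, Fintype.card_fin]
  have h2 : ∑ i ∈ range (n + 1), (hP P G i : ℤ) * (k.descFactorial i : ℤ) =
      ∑ i ∈ range (max n k + 1), (hP P G i : ℤ) * (k.descFactorial i : ℤ) := by
    refine Finset.sum_subset (fun i hi => ?_) (fun i _ hi => ?_)
    · rw [Finset.mem_range] at hi ⊢
      have := le_max_left n k
      omega
    · rw [Finset.mem_range, not_lt] at hi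
      rw [hP_zero P G (by omega)]
      simp
  have h3 : ∑ i ∈ range (k + 1), (hP P G i : ℤ) * (k.descFactorial i : ℤ) =
      ∑ i ∈ range (max n k + 1), (hP P G i : ℤ) * (k.descFactorial i : ℤ) := by
    refine Finset.sum_subset (fun i hi => ?_) (fun i _ hi => ?_)
    · rw [Finset.mem_range] at hi ⊢
      have := le_max_right n k
      omega
    · rw [Finset.mem_range, not_lt] at hi
      have h4 : k.descFactorial i = 0 := Nat.descFactorial_eq_zero_iff_lt.2 (by omega)
      rw [h4]
      simp
  rw [h2, h3]

theorem hP_congr (P : GProp) {n m : ℕ} (G : SimpleGraph (Fin n)) (H : SimpleGraph (Fin m))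
    (h : hpol P G = hpol P H) : ∀ k, hP P G k = hP P H k := by
  intro k
  induction k using Nat.strong_induction_on with
  | _ k ih =>
    have h1 := eval_hpol P G k
    rw [h, eval_hpol P H k, Finset.sum_range_succ, Finset.sum_range_succ] at h1
    have h2 : ∑ i ∈ range k, (hP P H i : ℤ) * (k.descFactorial i : ℤ) =
        ∑ i ∈ range k, (hP P G i : ℤ) * (k.descFactorial i : ℤ) :=
      Finset.sum_congr rfl fun i hi => by rw [ih i (Finset.mem_range.1 hi)]
    rw [h2] at h1
    have h3 := add_left_cancel h1
    have h4 : (k.descFactorial k : ℤ) ≠ 0 := by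
      rw [Nat.descFactorial_self]
      exact_mod_cast (Nat.factorial_pos k).ne'
    have h5 := mul_right_cancel₀ h4 h3
    exact_mod_cast h5.symm

theorem trn : TrnStmt := by
  intro x n G hG
  unfold Unq at hG
  push Not at hG
  obtain ⟨m, H, h1, h2⟩ := hG
  have h3 := hP_congr (ofBits x) G H h1
  have h4 : n = m := by
    apply le_antisymm
    · by_contra h5
      push Not at h5
      exact hP_pos x G ((h3 n).trans (hP_zero _ H h5))
    · by_contra h5
      push Not at h5
      exact hP_pos x H ((h3 m).symm.trans (hP_zero _ G h5))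
  subst h4
  refine ⟨H, fun h => ?_, fun j => ?_⟩
  · first
      | exact h2 h
      | exact h2.elim' h
      | exact (not_nonempty_iff.2 h2) h
  · rw [← hP_eq, ← hP_eq]
    exact h3 j

end

end Pool.Agent.HAR.H65
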